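import Mathlib
import Pool.Agent.W218.TX.Trip3

/-!
Prime triples: for every `ε > 0` a proportion `≫ ε ^ 2` of the pairs `2 ≤ d' < d ≤ log ^ 2 x` satisfies
`R(x; d', d) ≥ 1 - ε`, and the same for the triples of any dense subset of a short interval.
-/

namespace Pool.Agent.Results.MP_1039f5_nt.SharpConstantManyPairs
open Finset

/-- the singular series of `{0, d', d}` -/
noncomputable def S (d' d : ℕ) : ℝ := ∏' p : Nat.Primes,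
  ((1 - ((((({0, d', d} : Finset ℕ).image (fun n => n % (p : ℕ))).card : ℕ) : ℝ) / ((p : ℕ) : ℝ)))
    / (1 - 1 / ((p : ℕ) : ℝ)) ^ 3)

/-- the number of primes `p ≤ x` with `p - d`, `p - d'` prime -/
noncomputable def pi3 (x : ℝ) (d' d : ℕ) : ℕ :=
  ((range (⌊x⌋₊ + 1)).filter (fun p => p.Prime ∧ (p - d).Prime ∧ (p - d').Prime)).card

open Classical in
theorem result :
    (∃ κ : ℝ, 0 < κ ∧ ∀ ε : ℝ, 0 < ε → ε < 1 → ∃ X : ℝ, ∀ x : ℝ, X ≤ x →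
      κ * ε ^ 2 * Real.log x ^ 4 ≤
        (((Icc 2 ⌊Real.log x ^ 2⌋₊ ×ˢ Icc 2 ⌊Real.log x ^ 2⌋₊).filter (fun u : ℕ × ℕ =>
          Even u.1 ∧ Even u.2 ∧ u.1 < u.2 ∧ 0 < S u.1 u.2 ∧
          (1 - ε) * (S u.1 u.2 * (x / Real.log x ^ 3)) ≤ (pi3 x u.1 u.2 : ℝ))).card : ℝ)) ∧
    (∀ ρ : ℝ, 0 < ρ → ∃ κ : ℝ, 0 < κ ∧ ∀ lam : ℝ, 2 < lam → ∀ θ : ℝ, 0 < θ →
      θ < (1 - 1 / lam) * (1 - 2 / lam) → ∀ C : ℝ, ∃ X : ℝ, ∀ x : ℝ, X ≤ x →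
        ∀ (y H : ℕ) (A : Finset ℕ), ((y + H : ℕ) : ℝ) ≤ Real.log x ^ C → A ⊆ Ioc y (y + H) →
          ρ * H ≤ A.card → lam * Real.log x ≤ A.card →
          κ * ((1 - 1 / lam) * (1 - 2 / lam) - θ) ^ 2 * (A.card : ℝ) ^ 3 ≤
            (((A ×ˢ A ×ˢ A).filter (fun u : ℕ × ℕ × ℕ => u.1 < u.2.1 ∧ u.2.1 < u.2.2 ∧
              Even (u.2.2 - u.2.1) ∧ Even (u.2.2 - u.1) ∧ 0 < S (u.2.2 - u.2.1) (u.2.2 - u.1) ∧
              θ * (S (u.2.2 - u.2.1) (u.2.2 - u.1) * (x / Real.log x ^ 3)) ≤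
                (pi3 x (u.2.2 - u.2.1) (u.2.2 - u.1) : ℝ))).card : ℝ)) :=
  ⟨Pool.Agent.W218.TX.region, fun ρ hρ => Pool.Agent.W218.TX.tripReal ρ hρ⟩

end Pool.Agent.Results.MP_1039f5_nt.SharpConstantManyPairs
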